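import Pool.Agent.Helper60.PlzA.Goals

/-!
# Project PLA (MP_8e7d5e_co), packet ERRSUM: the sum of the error terms
-/

set_option autoImplicit false

namespace Pool.Agent.Helper9.PlzA

open Finset Pool.Agent.Helper93.Plz Pool.Agent.Helper60.PlzA

open scoped Classical

variable {V : Type} [Fintype V]

theorem ev_snoc_le {L : ℕ} (y : Fin (L + 1) → V) (u : V) {i : ℕ} (hi : i ≤ L) :
    ev (Fin.snoc (α := fun _ => V) y u) i = ev y i := by
  unfold ev
  have h : (⟨min i (L + 1), Nat.lt_succ_of_le (min_le_right i (L + 1))⟩ : Fin (L + 1 + 1)) =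
      Fin.castSucc ⟨min i L, Nat.lt_succ_of_le (min_le_right i L)⟩ := by
    ext
    simp only [Fin.val_castSucc]
    omega
  rw [h, Fin.snoc_castSucc]

theorem ev_snoc_last {L : ℕ} (y : Fin (L + 1) → V) (u : V) :
    ev (Fin.snoc (α := fun _ => V) y u) (L + 1) = u := by
  unfold ev
  have h : (⟨min (L + 1) (L + 1), Nat.lt_succ_of_le (min_le_right (L + 1) (L + 1))⟩ :
      Fin (L + 1 + 1)) = Fin.last (L + 1) := by
    ext
    simp
  rw [h, Fin.snoc_last]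

theorem snoc_mem {G : SimpleGraph V} {L : ℕ} (y : Fin (L + 1) → V) (u : V) :
    (Fin.snoc (α := fun _ => V) y u : Fin (L + 1 + 1) → V) ∈ Wk G (L + 1) ↔
      y ∈ Wk G L ∧ G.Adj (ev y L) u := by
  unfold Wk
  simp only [mem_filter, mem_univ, true_and]
  constructor
  · intro h
    refine ⟨fun i hi => ?_, ?_⟩
    · have := h i (by omega)
      rwa [ev_snoc_le y u (by omega), ev_snoc_le y u (by omega)] at this
    · have := h L (by omega)
      rwa [ev_snoc_le y u le_rfl, ev_snoc_last] at this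
  · rintro ⟨h, h'⟩ i hi
    rcases Nat.lt_succ_iff_lt_or_eq.1 hi with h1 | rfl
    · rw [ev_snoc_le y u (by omega), ev_snoc_le y u (by omega)]
      exact h i h1
    · rw [ev_snoc_le y u le_rfl, ev_snoc_last]
      exact h'

theorem sum_snoc (G : SimpleGraph V) (L : ℕ) (F : (Fin (L + 1 + 1) → V) → ℝ) :
    ∑ x ∈ Wk G (L + 1), F x = ∑ y ∈ Wk G L, ∑ u ∈ nbs G (ev y L), F (Fin.snoc (α := fun _ => V) y u) := by
  rw [Finset.sum_sigma']
  refine Finset.sum_nbij' (fun x => ⟨Fin.init x, x (Fin.last _)⟩) (fun p => Fin.snoc (α := fun _ => V) p.1 p.2)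
    ?_ ?_ ?_ ?_ ?_
  · intro x hx
    have h : Fin.snoc (α := fun _ => V) (Fin.init x) (x (Fin.last _)) = x := Fin.snoc_init_self x
    rw [← h] at hx
    have h2 := (snoc_mem _ _).1 hx
    simp only [mem_sigma]
    refine ⟨h2.1, ?_⟩
    unfold nbs
    simp only [mem_filter, mem_univ, true_and]
    exact h2.2
  · rintro ⟨y, u⟩ h
    simp only [mem_sigma] at h
    refine (snoc_mem _ _).2 ⟨h.1, ?_⟩
    have h2 := h.2
    unfold nbs at h2
    simpa using h2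
  · intro x _
    exact Fin.snoc_init_self x
  · rintro ⟨y, u⟩ _
    simp only [Fin.init_snoc, Fin.snoc_last]
  · intro x _
    simp only
    rw [Fin.snoc_init_self x]

/-- the walks without steps -/
theorem card_wk_zero (G : SimpleGraph V) : (Wk G 0).card = Fintype.card V := by
  unfold Wk
  rw [filter_true_of_mem (by intro x _ i hi; omega), card_univ]
  simp

/-- the sum of the squares of the codegrees over the nonadjacent pairs -/
noncomputable def SQ (G : SimpleGraph V) : ℝ :=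
  ∑ a, ∑ b, (if a ≠ b ∧ ¬ G.Adj a b then (cod G a b : ℝ) ^ 2 else 0)

/-- the indicator used for all counts: `q` and `r` are common neighbours of the nonadjacent `a` and `u` -/
noncomputable def ind (G : SimpleGraph V) (a u q r : V) : ℝ :=
  if (a ≠ u ∧ ¬ G.Adj a u) ∧ G.Adj a q ∧ G.Adj u q ∧ G.Adj a r ∧ G.Adj u r then 1 else 0

theorem ind_nonneg (G : SimpleGraph V) (a u q r : V) : 0 ≤ ind G a u q r := by
  unfold ind
  split_ifs <;> norm_num

theorem sq_eq (G : SimpleGraph V) : SQ G = ∑ a, ∑ u, ∑ q, ∑ r, ind G a u q r := by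
  unfold SQ
  refine sum_congr rfl fun a _ => sum_congr rfl fun u _ => ?_
  have h : (cod G a u : ℝ) = ∑ q, (if G.Adj a q ∧ G.Adj u q then (1 : ℝ) else 0) := by
    unfold cod cmn
    rw [card_filter]
    push_cast
    rfl
  by_cases h0 : a ≠ u ∧ ¬ G.Adj a u
  · rw [if_pos h0, sq, h, sum_mul_sum]
    refine sum_congr rfl fun q _ => sum_congr rfl fun r _ => ?_
    unfold ind
    by_cases h1 : G.Adj a q ∧ G.Adj u q <;> by_cases h2 : G.Adj a r ∧ G.Adj u r <;>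
      simp [h1, h2, h0]
  · rw [if_neg h0]
    symm
    refine sum_eq_zero fun q _ => sum_eq_zero fun r _ => ?_
    unfold ind
    rw [if_neg (fun h => h0 h.1)]

theorem nad_eq (G : SimpleGraph V) (a b : V) : (nad G b a : ℝ) = ∑ u, ∑ w, ind G u w a b := by
  unfold nad
  rw [card_filter, sum_product]
  unfold cmn
  push_cast
  rw [sum_filter]
  refine sum_congr rfl fun u _ => ?_
  by_cases h1 : G.Adj b u ∧ G.Adj a u
  · rw [if_pos h1, sum_filter]
    refine sum_congr rfl fun w _ => ?_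
    unfold ind
    have e1 := G.adj_comm u a
    have e2 := G.adj_comm u b
    have e3 := G.adj_comm w a
    have e4 := G.adj_comm w b
    by_cases h2 : G.Adj b w ∧ G.Adj a w
    · rw [if_pos h2]
      by_cases h3 : u ≠ w ∧ ¬ G.Adj u w
      · rw [if_pos h3, if_pos ⟨h3, e1.2 h1.2, e3.2 h2.2, e2.2 h1.1, e4.2 h2.1⟩]
      · rw [if_neg h3, if_neg (fun h => h3 h.1)]
    · rw [if_neg h2, if_neg (fun h => h2 ⟨e4.1 h.2.2.2.2, e3.1 h.2.2.1⟩)]
  · rw [if_neg h1]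
    symm
    refine sum_eq_zero fun w _ => ?_
    unfold ind
    rw [if_neg (fun h => h1 ⟨(G.adj_comm u b).1 h.2.2.2.1, (G.adj_comm u a).1 h.2.1⟩)]

theorem sum4 {f : V → V → V → V → ℝ} :
    ∑ a, ∑ b, ∑ u, ∑ w, f u w a b = ∑ u, ∑ w, ∑ a, ∑ b, f u w a b := by
  calc ∑ a, ∑ b, ∑ u, ∑ w, f u w a b = ∑ a, ∑ u, ∑ b, ∑ w, f u w a b :=
        sum_congr rfl fun a _ => sum_comm
    _ = ∑ u, ∑ a, ∑ b, ∑ w, f u w a b := sum_comm
    _ = ∑ u, ∑ a, ∑ w, ∑ b, f u w a b := sum_congr rfl fun u _ => sum_congr rfl fun a _ => sum_comm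
    _ = ∑ u, ∑ w, ∑ a, ∑ b, f u w a b := sum_congr rfl fun u _ => sum_comm

theorem nad_sum (G : SimpleGraph V) : ∑ a, ∑ b, (nad G b a : ℝ) = SQ G := by
  rw [sq_eq]
  simp only [nad_eq]
  exact sum4

theorem er3_eq (G : SimpleGraph V) (a q r : V) : (er3 G a q r : ℝ) = ∑ u, ind G a u q r := by
  unfold er3
  by_cases h : G.Adj a q ∧ G.Adj a r
  · rw [if_pos h]
    unfold cmn
    rw [filter_filter, card_filter]
    push_cast
    refine sum_congr rfl fun u _ => ?_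
    unfold ind
    have e1 := G.adj_comm u q
    have e2 := G.adj_comm u r
    by_cases h1 : (G.Adj q u ∧ G.Adj r u) ∧ u ≠ a ∧ ¬ G.Adj a u
    · rw [if_pos h1, if_pos ⟨⟨Ne.symm h1.2.1, h1.2.2⟩, h.1, e1.2 h1.1.1, h.2, e2.2 h1.1.2⟩]
    · rw [if_neg h1, if_neg (fun h2 => h1 ⟨⟨e1.1 h2.2.2.1, e2.1 h2.2.2.2.2⟩, Ne.symm h2.1.1, h2.1.2⟩)]
  · rw [if_neg h]
    symm
    rw [Nat.cast_zero]
    refine sum_eq_zero fun u _ => ?_
    unfold ind
    rw [if_neg (fun h2 => h ⟨h2.2.1, h2.2.2.2.1⟩)]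

theorem er3_sum (G : SimpleGraph V) : ∑ a, ∑ q, ∑ r ∈ nbs G q, (er3 G a q r : ℝ) ≤ SQ G := by
  rw [sq_eq]
  refine sum_le_sum fun a _ => ?_
  calc ∑ q, ∑ r ∈ nbs G q, (er3 G a q r : ℝ) ≤ ∑ q, ∑ r, (er3 G a q r : ℝ) :=
        sum_le_sum fun q _ => sum_le_sum_of_subset_of_nonneg (subset_univ _) fun _ _ _ => Nat.cast_nonneg _
    _ = ∑ q, ∑ r, ∑ u, ind G a u q r := by simp only [er3_eq]
    _ = ∑ q, ∑ u, ∑ r, ind G a u q r := sum_congr rfl fun q _ => sum_comm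
    _ = ∑ u, ∑ q, ∑ r, ind G a u q r := sum_comm

/-- the window of a walk -/
theorem win {G : SimpleGraph V} {k p L : ℕ} (x : Fin (k + 1) → V) {j : ℕ} (hj : j ≤ L) :
    ev (fun j : Fin (L + 1) => ev x (p + (j : ℕ))) j = ev x (p + j) := by
  conv_lhs => unfold ev
  simp only [min_eq_left hj]
  rfl

theorem crs_sum (h4 : S_BTWO) {G : SimpleGraph V} {t : ℕ} {γ : ℝ} (hR : Reg G t γ) (L : ℕ) :
    ∑ y ∈ Wk G L, (crs G (ev y L) (ev y 0) : ℝ) ≤ 2 * γ * Fintype.card V * (t : ℝ) ^ (L + 2) := by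
  refine le_trans (le_of_eq ?_) (h4 V _ G t γ hR (L + 1) (by omega))
  rw [sum_snoc]
  refine sum_congr rfl fun y _ => ?_
  unfold crs
  push_cast
  rw [sum_filter]
  refine sum_congr rfl fun u _ => ?_
  rw [ev_snoc_le y u (Nat.zero_le L), ev_snoc_last]
  by_cases h : ¬ G.Adj (ev y 0) u ∧ u ≠ ev y 0
  · rw [if_pos h, if_pos ⟨Ne.symm h.2, h.1⟩]
  · rw [if_neg h, if_neg (fun h2 => h ⟨h2.2, Ne.symm h2.1⟩)]

theorem nad_win (h2 : S_PAIR) (h3 : S_BONE) {G : SimpleGraph V} {t : ℕ} {γ : ℝ} (hR : Reg G t γ) (L : ℕ)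
    (hL : 1 ≤ L) :
    ∑ y ∈ Wk G L, (nad G (ev y L) (ev y 0) : ℝ) ≤ 2 * γ * Fintype.card V * (t : ℝ) ^ (L + 2) := by
  refine le_trans (h2 V _ G t hR.deg L hL (fun a b => (nad G b a : ℝ)) fun _ _ => Nat.cast_nonneg _) ?_
  rw [nad_sum]
  have h5 : SQ G ≤ 2 * γ * Fintype.card V * (t : ℝ) ^ 3 := h3 V _ G t γ hR
  calc (t : ℝ) ^ (L - 1) * SQ G ≤ (t : ℝ) ^ (L - 1) * (2 * γ * Fintype.card V * (t : ℝ) ^ 3) :=
        mul_le_mul_of_nonneg_left h5 (by positivity)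
    _ = 2 * γ * Fintype.card V * (t : ℝ) ^ (L + 2) := by
        have : L + 2 = L - 1 + 3 := by omega
        rw [this, pow_add]
        ring

theorem er3_win (h2 : S_PAIR) (h3 : S_BONE) {G : SimpleGraph V} {t : ℕ} {γ : ℝ} (hR : Reg G t γ) (L : ℕ)
    (hL : 2 ≤ L) :
    ∑ y ∈ Wk G L, (er3 G (ev y 0) (ev y (L - 1)) (ev y L) : ℝ) ≤
      2 * γ * Fintype.card V * (t : ℝ) ^ (L + 1) := by
  obtain ⟨m, rfl⟩ : ∃ m, L = m + 1 := ⟨L - 1, by omega⟩
  rw [sum_snoc]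
  have e : ∀ y ∈ Wk G m, ∑ u ∈ nbs G (ev y m), (er3 G (ev (Fin.snoc (α := fun _ => V) y u) 0)
      (ev (Fin.snoc (α := fun _ => V) y u) (m + 1 - 1)) (ev (Fin.snoc (α := fun _ => V) y u) (m + 1)) : ℝ) =
      (fun a q => ∑ r ∈ nbs G q, (er3 G a q r : ℝ)) (ev y 0) (ev y m) := by
    intro y _
    refine sum_congr rfl fun u _ => ?_
    rw [ev_snoc_le y u (Nat.zero_le m), ev_snoc_last, Nat.add_sub_cancel, ev_snoc_le y u le_rfl]
  rw [sum_congr rfl e]
  refine le_trans (h2 V _ G t hR.deg m (by omega) (fun a q => ∑ r ∈ nbs G q, (er3 G a q r : ℝ))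
    fun _ _ => sum_nonneg fun _ _ => Nat.cast_nonneg _) ?_
  have h5 : SQ G ≤ 2 * γ * Fintype.card V * (t : ℝ) ^ 3 := h3 V _ G t γ hR
  calc (t : ℝ) ^ (m - 1) * ∑ a, ∑ b, ∑ r ∈ nbs G b, (er3 G a b r : ℝ) ≤ (t : ℝ) ^ (m - 1) * SQ G :=
        mul_le_mul_of_nonneg_left (er3_sum G) (by positivity)
    _ ≤ (t : ℝ) ^ (m - 1) * (2 * γ * Fintype.card V * (t : ℝ) ^ 3) :=
        mul_le_mul_of_nonneg_left h5 (by positivity)
    _ = 2 * γ * Fintype.card V * (t : ℝ) ^ (m + 1 + 1) := by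
        have : m + 1 + 1 = m - 1 + 3 := by omega
        rw [this, pow_add]
        ring

/-- the contribution of one pair of indices -/
theorem pair_term (h1 : S_WINU) (h2 : S_PAIR) (h3 : S_BONE) (h4 : S_BTWO) {G : SimpleGraph V} {t : ℕ} {γ : ℝ}
    (hR : Reg G t γ) {k i p : ℕ} (hi : i ≤ k) (hp : p < i) :
    ∑ x ∈ Wk G k, (2 * (crs G (ev x i) (ev x p) : ℝ) + nad G (ev x i) (ev x p) +
        if p + 2 ≤ i then 2 * t * (er3 G (ev x p) (ev x (i - 1)) (ev x i) : ℝ) else 0) ≤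
      10 * γ * Fintype.card V * (t : ℝ) ^ (k + 2) := by
  obtain ⟨L, rfl⟩ : ∃ L, i = p + L := ⟨i - p, by omega⟩
  have hL : 1 ≤ L := by omega
  have hk : k + 2 = (k - L) + (L + 2) := by omega
  have w : ∀ f : (Fin (L + 1) → V) → ℝ, (∀ y, 0 ≤ f y) → ∀ B, ∑ y ∈ Wk G L, f y ≤ B →
      ∑ x ∈ Wk G k, f (fun j => ev x (p + (j : ℕ))) ≤ (t : ℝ) ^ (k - L) * B := by
    intro f hf B hB
    exact le_trans (h1 V _ G t hR.deg k p L hi f hf) (mul_le_mul_of_nonneg_left hB (by positivity))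
  have c1 := w (fun y => (crs G (ev y L) (ev y 0) : ℝ)) (fun _ => Nat.cast_nonneg _) _ (crs_sum h4 hR L)
  have c2 := w (fun y => (nad G (ev y L) (ev y 0) : ℝ)) (fun _ => Nat.cast_nonneg _) _ (nad_win h2 h3 hR L hL)
  have e0 : ∀ x : Fin (k + 1) → V, ev (fun j : Fin (L + 1) => ev x (p + (j : ℕ))) L = ev x (p + L) :=
    fun x => win (G := G) x le_rfl
  have e1 : ∀ x : Fin (k + 1) → V, ev (fun j : Fin (L + 1) => ev x (p + (j : ℕ))) 0 = ev x p :=
    fun x => win (G := G) x (Nat.zero_le _)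
  have e2 : ∀ x : Fin (k + 1) → V, ev (fun j : Fin (L + 1) => ev x (p + (j : ℕ))) (L - 1) = ev x (p + L - 1) := by
    intro x
    rw [win (G := G) x (Nat.sub_le _ _)]
    congr 1
    omega
  simp only [e0, e1] at c1 c2
  rw [sum_add_distrib, sum_add_distrib, ← mul_sum]
  have hpow : (t : ℝ) ^ (k + 2) = (t : ℝ) ^ (k - L) * (t : ℝ) ^ (L + 2) := by rw [hk, pow_add]
  have hγ : 0 ≤ γ := by
    by_contra hneg
    push Not at hneg
    have := hR.one
    have ht : (0 : ℝ) ≤ t := Nat.cast_nonneg t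
    nlinarith
  have c3 : ∑ x ∈ Wk G k, (if p + 2 ≤ p + L then 2 * t * (er3 G (ev x p) (ev x (p + L - 1)) (ev x (p + L)) : ℝ)
      else 0) ≤ 4 * γ * Fintype.card V * (t : ℝ) ^ (k + 2) := by
    by_cases h : p + 2 ≤ p + L
    · simp only [if_pos h]
      rw [← mul_sum]
      have c4 := w (fun y => (er3 G (ev y 0) (ev y (L - 1)) (ev y L) : ℝ)) (fun _ => Nat.cast_nonneg _) _
        (er3_win h2 h3 hR L (by omega))
      simp only [e0, e1, e2] at c4
      calc 2 * (t : ℝ) * ∑ x ∈ Wk G k, (er3 G (ev x p) (ev x (p + L - 1)) (ev x (p + L)) : ℝ) ≤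
          2 * t * ((t : ℝ) ^ (k - L) * (2 * γ * Fintype.card V * (t : ℝ) ^ (L + 1))) :=
            mul_le_mul_of_nonneg_left c4 (by positivity)
        _ = 4 * γ * Fintype.card V * (t : ℝ) ^ (k + 2) := by
            rw [hpow]
            ring
    · simp only [if_neg h, sum_const_zero]
      positivity
  have c5 : (t : ℝ) ^ (k - L) * (2 * γ * Fintype.card V * (t : ℝ) ^ (L + 2)) =
      2 * γ * Fintype.card V * (t : ℝ) ^ (k + 2) := by
    rw [hpow]
    ring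
  rw [c5] at c1 c2
  linarith

/-- **ERRSUM.** -/
theorem errsum (h1 : S_WINU) (h2 : S_PAIR) (h3 : S_BONE) (h4 : S_BTWO) : S_ERRSUM := by
  intro V _ G t γ hR k
  have hγ : 0 ≤ γ := by
    by_contra hneg
    push Not at hneg
    have := hR.one
    have ht : (0 : ℝ) ≤ t := Nat.cast_nonneg t
    nlinarith
  have hW : ((Wk G k).card : ℝ) ≤ (t : ℝ) ^ k * Fintype.card V := by
    have h := h1 V _ G t hR.deg k 0 0 (by omega) (fun _ => 1) (fun _ => zero_le_one)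
    simp only [sum_const, nsmul_eq_mul, mul_one, card_wk_zero, Nat.sub_zero] at h
    exact h
  unfold Err
  rw [sum_add_distrib, sum_const, nsmul_eq_mul, sum_comm]
  have hA : ((Wk G k).card : ℝ) * (7 * ((k : ℝ) + 1) ^ 2 * t) ≤
      7 * ((k : ℝ) + 1) ^ 2 * γ * Fintype.card V * (t : ℝ) ^ (k + 2) := by
    have h5 : ((Wk G k).card : ℝ) * t ≤ γ * Fintype.card V * (t : ℝ) ^ (k + 2) := by
      calc ((Wk G k).card : ℝ) * t ≤ (t : ℝ) ^ k * Fintype.card V * t :=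
            mul_le_mul_of_nonneg_right hW (Nat.cast_nonneg _)
        _ = ((t : ℝ) ^ (k + 1) * Fintype.card V) * 1 := by ring
        _ ≤ ((t : ℝ) ^ (k + 1) * Fintype.card V) * (γ * t) :=
            mul_le_mul_of_nonneg_left hR.one (by positivity)
        _ = γ * Fintype.card V * (t : ℝ) ^ (k + 2) := by ring
    calc ((Wk G k).card : ℝ) * (7 * ((k : ℝ) + 1) ^ 2 * t) = 7 * ((k : ℝ) + 1) ^ 2 * (((Wk G k).card : ℝ) * t) := by
          ring
      _ ≤ 7 * ((k : ℝ) + 1) ^ 2 * (γ * Fintype.card V * (t : ℝ) ^ (k + 2)) :=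
          mul_le_mul_of_nonneg_left h5 (by positivity)
      _ = 7 * ((k : ℝ) + 1) ^ 2 * γ * Fintype.card V * (t : ℝ) ^ (k + 2) := by ring
  set T : ℝ := γ * Fintype.card V * (t : ℝ) ^ (k + 2) with hT
  have hT0 : 0 ≤ T := by positivity
  have hB : ∑ i ∈ range (k + 1), ∑ x ∈ Wk G k, ∑ p ∈ range i,
      (2 * (crs G (ev x i) (ev x p) : ℝ) + nad G (ev x i) (ev x p) +
        if p + 2 ≤ i then 2 * t * (er3 G (ev x p) (ev x (i - 1)) (ev x i) : ℝ) else 0) ≤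
      ∑ i ∈ range (k + 1), (i : ℝ) * (10 * T) := by
    refine sum_le_sum fun i hi => ?_
    rw [sum_comm]
    calc ∑ p ∈ range i, ∑ x ∈ Wk G k, (2 * (crs G (ev x i) (ev x p) : ℝ) + nad G (ev x i) (ev x p) +
        if p + 2 ≤ i then 2 * t * (er3 G (ev x p) (ev x (i - 1)) (ev x i) : ℝ) else 0) ≤
        ∑ p ∈ range i, 10 * T := by
          refine sum_le_sum fun p hp => ?_
          refine le_trans (pair_term h1 h2 h3 h4 hR (Nat.lt_succ_iff.1 (mem_range.1 hi)) (mem_range.1 hp)) ?_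
          rw [hT]
          exact le_of_eq (by ring)
      _ = (i : ℝ) * (10 * T) := by rw [sum_const, card_range, nsmul_eq_mul]
  have hC : ∑ i ∈ range (k + 1), (i : ℝ) = (k : ℝ) * (k + 1) / 2 := by
    have h := Finset.sum_range_id_mul_two (k + 1)
    have h' : ((∑ i ∈ range (k + 1), i : ℕ) : ℝ) * 2 = ((k + 1 : ℕ) : ℝ) * ((k + 1 - 1 : ℕ) : ℝ) := by
      exact_mod_cast h
    push_cast at h'
    linarith
  rw [← sum_mul, hC] at hB
  have hD : (k : ℝ) * (k + 1) / 2 * (10 * T) ≤ 5 * ((k : ℝ) + 1) ^ 2 * T := by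
    have hk : (0 : ℝ) ≤ k := Nat.cast_nonneg k
    nlinarith [mul_nonneg hk hT0]
  have hE : 12 * ((k : ℝ) + 1) ^ 2 * γ * Fintype.card V * (t : ℝ) ^ (k + 2) = 12 * ((k : ℝ) + 1) ^ 2 * T := by
    rw [hT]
    ring
  have hF : 7 * ((k : ℝ) + 1) ^ 2 * γ * Fintype.card V * (t : ℝ) ^ (k + 2) = 7 * ((k : ℝ) + 1) ^ 2 * T := by
    rw [hT]
    ring
  rw [hF] at hA
  rw [hE]
  linarith

end Pool.Agent.Helper9.PlzA
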